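import Pool.Agent.W_04c03c_h58t.WF

/-! The dimension of the irreducible components of the representation schemes of the groups of Q1 and
of their partial Dehn fillings. -/

namespace Pool.Agent.Results.MP_04c03c_gt.ComponentDimension

open RCan MvPolynomial

/-- The matrix of the variables `X (q, i, j)`. -/
noncomputable def genMat (K : Type) [Field K] {Q : Type} (n : ℕ) (q : Q) :
    Matrix (Fin n) (Fin n) (MvPolynomial (Q × Fin n × Fin n) K) := fun i j => X (q, i, j)

/-- The ideal of the relations of the representations of `Q` over `K` of dimension `n` and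
determinant `δ`: its quotient is the coordinate ring of the scheme of these representations. -/
noncomputable def repIdeal {K : Type} [Field K] {Q : Type} [Group Q] (n : ℕ) (δ : Q →* Kˣ) :
    Ideal (MvPolynomial (Q × Fin n × Fin n) K) :=
  Ideal.span {p | (∃ (q r : Q) (i j : Fin n),
      p = (genMat K n (q * r) - genMat K n q * genMat K n r) i j) ∨
    (∃ i j : Fin n, p = (genMat K n (1 : Q) - 1) i j) ∨
    ∃ q : Q, p = (genMat K n q).det - C ((δ q : Kˣ) : K)}

/-- The evaluation at a representation: its kernel is the maximal ideal of the point. -/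
noncomputable def evalAt {K : Type} [Field K] {Q : Type} [Group Q] {n : ℕ}
    (ρ : Q →* Matrix (Fin n) (Fin n) K) : MvPolynomial (Q × Fin n × Fin n) K →ₐ[K] K :=
  aeval fun v => ρ v.1 v.2.1 v.2.2

/-- The matrices `Y` with `ρ(π g) Y ρ(π g)⁻¹ - w(g) Y` scalar for all `g` in `G`. -/
def twistSpace {K : Type} [Field K] {G Q : Type} [Group G] [Group Q] {n : ℕ} (w : G →* ℤˣ)
    (π : G →* Q) (ρ : Q →* Matrix (Fin n) (Fin n) K) : Submodule K (Matrix (Fin n) (Fin n) K) where
  carrier := {Y | ∀ g, ∃ c : K,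
    ρ (π g) * Y * ρ (π g)⁻¹ - (((w g : ℤˣ) : ℤ) : K) • Y = c • 1}
  zero_mem' := fun _ => ⟨0, by simp⟩
  add_mem' := by
    intro Y Z hY hZ g
    obtain ⟨c, hc⟩ := hY g
    obtain ⟨d, hd⟩ := hZ g
    refine ⟨c + d, ?_⟩
    rw [add_smul, ← hc, ← hd, mul_add, add_mul, smul_add]
    abel
  smul_mem' := by
    intro t Y hY g
    obtain ⟨c, hc⟩ := hY g
    refine ⟨t * c, ?_⟩
    rw [mul_smul, ← hc, smul_sub, Matrix.mul_smul, Matrix.smul_mul, smul_comm t _ Y]

/-- `P` is the ideal of an irreducible component through `ρ` of the scheme of the representations with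
determinant `δ`. -/
def IsComponent {K : Type} [Field K] {Q : Type} [Group Q] {n : ℕ} (δ : Q →* Kˣ)
    (ρ : Q →* Matrix (Fin n) (Fin n) K) (P : Ideal (MvPolynomial (Q × Fin n × Fin n) K)) : Prop :=
  P ∈ (repIdeal n δ).minimalPrimes ∧ P ≤ RingHom.ker (evalAt ρ)

/-- The dimension of the component with the ideal `P`. -/
noncomputable def compDim {K : Type} [Field K] {Q : Type} {n : ℕ}
    (P : Ideal (MvPolynomial (Q × Fin n × Fin n) K)) : WithBot ℕ∞ :=
  ringKrullDim (MvPolynomial (Q × Fin n × Fin n) K ⧸ P)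

/-- Irreducible representations. -/
def IsIrr {K : Type} [Field K] {Q : Type} [Group Q] {n : ℕ}
    (ρ : Q →* Matrix (Fin n) (Fin n) K) : Prop :=
  ∀ W : Submodule K (Fin n → K), (∀ q, ∀ v ∈ W, (ρ q).mulVec v ∈ W) → W = ⊥ ∨ W = ⊤

/-- If `ρ` is isomorphic to its twist by `w` then `w` is trivial in `K`. -/
def NoTwist {K : Type} [Field K] {G Q : Type} [Group G] [Group Q] {n : ℕ} (w : G →* ℤˣ)
    (π : G →* Q) (ρ : Q →* Matrix (Fin n) (Fin n) K) : Prop :=
  ∀ Y : Matrix (Fin n) (Fin n) K, IsUnit Y →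
    (∀ g, ρ (π g) * Y = (((w g : ℤˣ) : ℤ) : K) • (Y * ρ (π g))) →
    ∀ g, (((w g : ℤˣ) : ℤ) : K) = 1

/-- The torsion-free groups of Q1: `G` is finitely generated, torsion-free and hyperbolic relative to
pairwise non-conjugate subgroups `H i` isomorphic to `ℤ²`, with Bowditch boundary the two-sphere. -/
structure TorsionFreeQ1 (G : Type) [Group G] {k : ℕ} (H : Fin k → Subgroup G) : Prop where
  fg : Group.FG G
  torsionFree : ∀ (g : G) (m : ℕ), 0 < m → g ^ m = 1 → g = 1
  z2 : ∀ i, Nonempty (H i ≃* Multiplicative (ℤ × ℤ))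
  nonconj : ∀ (i j : Fin k) (g : G), H j = (H i).map (MulAut.conj g).toMonoidHom → i = j
  sphere : SphereRelHyp G H

/-- `π : G → Q` is the quotient by the normal subgroup generated by the elements `R i` of the `H i`. -/
structure IsFilling {G Q : Type} [Group G] [Group Q] {k : ℕ} (H : Fin k → Subgroup G)
    (R : Fin k → G) (π : G →* Q) : Prop where
  mem : ∀ i, R i ∈ H i
  surj : Function.Surjective π
  ker : π.ker = Subgroup.normalClosure (Set.range R)

theorem twistSpace_eq {K : Type} [Field K] {G Q : Type} [Group G] [Group Q] {n : ℕ}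
    (w : G →* ℤˣ) (π : G →* Q) (ρ : Q →* Matrix (Fin n) (Fin n) K) :
    Thu.YY (Thu.sgU w K) (ρ.comp π) = twistSpace w π ρ := by
  ext Y
  have h : ∀ g : G, (ρ.comp π) g * Y * (ρ.comp π) g⁻¹ - ((Thu.sgU w K g : Kˣ) : K) • Y =
      ρ (π g) * Y * ρ (π g)⁻¹ - (((w g : ℤˣ) : ℤ) : K) • Y := by
    intro g
    rw [Thu.sgU_apply, MonoidHom.comp_apply, MonoidHom.comp_apply, map_inv]
  constructor
  · intro hY g
    obtain ⟨c, hc⟩ := hY g
    exact ⟨c, (h g).symm.trans hc⟩
  · intro hY g
    obtain ⟨c, hc⟩ := hY g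
    exact ⟨c, (h g).trans hc⟩

/-- Let `G` be finitely generated, torsion-free and hyperbolic relative to pairwise non-conjugate
subgroups `H 1, ..., H k`, `k ≥ 1`, each isomorphic to `ℤ²`, with Bowditch boundary the two-sphere.
There is `w : G → {1, -1}`, trivial on the `H i`, such that for all `R i ∈ H i`, `Q = G/⟨⟨R i⟩⟩`,
`u` the number of the `i` with `R i = 1`, all algebraically closed fields `K` and all
representations `ρ` of `Q` of dimension `n` over `K`: every irreducible component through `ρ` of the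
scheme of the representations of `Q` with the determinant of `ρ` has dimension at least
`n² + u (n - 1) - dim twistSpace`, and at least `n² - 1 + u (n - 1)` if `ρ` is irreducible, `n ≠ 0`
in `K` and `ρ` is not isomorphic to its twist by `w` unless `w` is trivial in `K`. -/
theorem result (G : Type) [Group G] (k : ℕ) (hk : 0 < k) (H : Fin k → Subgroup G)
    (hG : TorsionFreeQ1 G H) :
    ∃ w : G →* ℤˣ, (∀ i, ∀ g ∈ H i, w g = 1) ∧
      ∀ (R : Fin k → G) (Q : Type) [Group Q] (π : G →* Q), IsFilling H R π →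
      ∀ (K : Type) [Field K] [IsAlgClosed K] (n : ℕ), 0 < n →
      ∀ (δ : Q →* Kˣ) (ρ : Q →* Matrix (Fin n) (Fin n) K), (∀ q, (ρ q).det = (δ q : K)) →
      ∀ P, IsComponent δ ρ P →
        ((n ^ 2 + Nat.card {i // R i = 1} * (n - 1) : ℕ) : WithBot ℕ∞) ≤
            compDim P + ((Module.finrank K (twistSpace w π ρ) : ℕ) : ℕ∞) ∧
        (IsIrr ρ → (n : K) ≠ 0 → NoTwist w π ρ →
          ((n ^ 2 - 1 + Nat.card {i // R i = 1} * (n - 1) : ℕ) : WithBot ℕ∞) ≤ compDim P) := by
  have := hG.fg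
  obtain ⟨w, hw, h⟩ := Thu.dim_fill hG.torsionFree ⟨0, hk⟩ H hG.z2 hG.nonconj hG.sphere
  refine ⟨w, hw, ?_⟩
  intro R Q _ π hπ K _ _ n hn δ ρ hδ P hP
  have h1 := h Q π hπ.surj R hπ.mem hπ.ker K n hn.ne' δ ρ hδ P hP.1 hP.2
  rw [twistSpace_eq] at h1
  refine ⟨h1, fun hirr hn0 htw => ?_⟩
  have h2 : Module.finrank K (twistSpace w π ρ) = 1 := by
    rw [← twistSpace_eq]
    exact Thu.yy_irr hn0 (Thu.WF_irr hπ.surj hirr) fun Y hY hYg => by
      ext g
      rw [Thu.sgU_apply, htw Y hY hYg g]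
      rfl
  rw [h2] at h1
  exact Thu.WF_arith hn h1

end Pool.Agent.Results.MP_04c03c_gt.ComponentDimension
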