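import Pool.Agent.W_04c03c_h58k.ZZ2

/-! The groups of Q1 (Cannon's case included) have no infinite subgroups with Kazhdan's property
(T). -/

namespace Pool.Agent.Results.MP_04c03c_gt.KazhdanSubgroups

open RCan

/-- A unitary (`𝕜 = ℂ`) or orthogonal (`𝕜 = ℝ`) representation of the group `K` on the Hilbert space
`E`: an action by linear isometries. -/
structure HRep (𝕜 K E : Type) [RCLike 𝕜] [Group K] [NormedAddCommGroup E]
    [InnerProductSpace 𝕜 E] where
  /-- the action -/
  act : K → E → E
  act_one : ∀ v, act 1 v = v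
  act_mul : ∀ g h v, act (g * h) v = act g (act h v)
  act_add : ∀ g v w, act g (v + w) = act g v + act g w
  act_smul : ∀ g (c : 𝕜) v, act g (c • v) = c • act g v
  norm_act : ∀ g v, ‖act g v‖ = ‖v‖

/-- Kazhdan's property (T): there are a finite set `Q` and `ε > 0` such that every unitary
representation with a `(Q, ε)`-invariant vector has a nonzero invariant vector. -/
def HasT (K : Type) [Group K] : Prop :=
  ∃ (Q : Finset K) (ε : ℝ), 0 < ε ∧
    ∀ (E : Type) [NormedAddCommGroup E] [InnerProductSpace ℂ E] [CompleteSpace E]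
      (π : HRep ℂ K E), (∃ v : E, v ≠ 0 ∧ ∀ q ∈ Q, ‖π.act q v - v‖ < ε * ‖v‖) →
      ∃ v : E, v ≠ 0 ∧ ∀ g, π.act g v = v

/-- The convolution `a * f` -/
noncomputable def conv {K : Type} [Group K] (a f : K →₀ ℝ) (x : K) : ℝ :=
  a.sum fun k r => r * f (k⁻¹ * x)

/-- The operator `π(a)` for `a` in the real group ring -/
noncomputable def HRep.op {K E : Type} [Group K] [NormedAddCommGroup E] [InnerProductSpace ℝ E]
    (π : HRep ℝ K E) (a : K →₀ ℝ) (v : E) : E := a.sum fun k r => r • π.act k v

/-- The orthogonal representation `π` is weakly contained in the regular representation: the norm of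
`π(a)` is at most the norm of the convolution operator of `a` on `ℓ²(K)`, for all `a` in the real
group ring. -/
def Tempered {K E : Type} [Group K] [NormedAddCommGroup E] [InnerProductSpace ℝ E]
    (π : HRep ℝ K E) : Prop :=
  ∀ (a : K →₀ ℝ) (C : ℝ), 0 ≤ C →
    (∀ f : K →₀ ℝ, ∑ᶠ x, conv a f x ^ 2 ≤ C ^ 2 * ∑ᶠ x, f x ^ 2) → ∀ v : E, ‖π.op a v‖ ≤ C * ‖v‖

/-- `v ↦ π(g) v + b(g)` is an affine isometric action of `K` on `E` without almost fixed points. -/
def NoAlmostFixed {K E : Type} [Group K] [NormedAddCommGroup E] [InnerProductSpace ℝ E]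
    (π : HRep ℝ K E) (b : K → E) : Prop :=
  (∀ g h, b (g * h) = b g + π.act g (b h)) ∧
    ∃ (S : Finset K) (c : ℝ), 0 < c ∧ ∀ v, c ≤ ∑ s ∈ S, ‖π.act s v + b s - v‖

/-- The representation given by a homomorphism to the group of linear isometries. -/
def HRep.ofHom {𝕜 K E : Type} [RCLike 𝕜] [Group K] [NormedAddCommGroup E] [InnerProductSpace 𝕜 E]
    (π : K →* (E ≃ₗᵢ[𝕜] E)) : HRep 𝕜 K E where
  act g v := π g v
  act_one v := by rw [map_one]; rfl
  act_mul g h v := by rw [map_mul]; rfl
  act_add g v w := map_add _ _ _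
  act_smul g c v := map_smul _ _ _
  norm_act g v := LinearIsometryEquiv.norm_map _ _

/-- Let `G` be hyperbolic relative to virtually `ℤ²` subgroups `H i` (any number of them, none
included), with Bowditch boundary the two-sphere. Then `G` is infinite, and no infinite group `K`
which embeds in `G` has Kazhdan's property (T). Moreover, if `K` is finitely generated, it has an
affine isometric action on a real Hilbert space with linear part `π` weakly contained in the regular
representation of `K` and without almost fixed points: there are a finite set `S` and `c > 0` such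
that every point is moved by the elements of `S` by at least `c` in total. So the reduced first
cohomology of `K` with coefficients in `π` is not zero. -/
theorem result (G : Type) [Group G] {ι : Type*} (H : ι → Subgroup G) (hH : ∀ i, VirtZ2 (H i))
    (hG : SphereRelHyp G H) :
    Infinite G ∧ ∀ (K : Type) [Group K] (j : K →* G), Function.Injective j → Infinite K →
      ¬ HasT K ∧
      (Group.FG K → ∃ (E : Type) (_ : NormedAddCommGroup E) (_ : InnerProductSpace ℝ E)
        (_ : CompleteSpace E) (π : HRep ℝ K E) (b : K → E), Tempered π ∧ NoAlmostFixed π b) := by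
  refine ⟨Kaz.infinite_of H hH hG, fun K _ j hj hinf => ⟨fun hT => ?_, fun hfg => ?_⟩⟩
  · refine Kaz.not_hasT_sub H hH hG j hj ?_
    obtain ⟨Q, ε, hε, h⟩ := hT
    exact ⟨Q, ε, hε, fun E _ _ _ π hv => h E (HRep.ofHom π) hv⟩
  · obtain ⟨E, _, _, _, π, b, h1, h2, h3⟩ := Kaz.reduced_of H hH hG j hj hfg
    exact ⟨E, _, _, ‹_›, HRep.ofHom π, b, h1, h2, h3⟩

end Pool.Agent.Results.MP_04c03c_gt.KazhdanSubgroups
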