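import Pool.Agent.W_04c03c_h62q.QPg
import Pool.Agent.W_04c03c_X58.Lf58

/-! Largeness of the partial Dehn fillings of the subgroups of the groups of Q1. -/

namespace Pool.Agent.Results.MP_04c03c_gt.LargeFillings

open RCan Q62

/-- Let `G` be hyperbolic relative to virtually `ℤ²` subgroups `H i`, with Bowditch boundary the
two-sphere. Let `Γ ≤ G` be any subgroup, and let `π : Γ → Q` be a partial Dehn filling of `Γ`: its
kernel is normally generated by elements `R j` of pairwise non-conjugate torus cusps `L j` of `Γ`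
(`m = 0`, that is `Q = Γ`, is allowed); suppose that `Q` is finitely presented, and that `Γ` has an
unfilled torus cusp `L₀`. Let `p` be a prime. Then the following are equivalent: `Q` is large; some
subgroup of finite index has three inequivalent unfilled torus cusps; some subgroup of finite index
has first Betti number at least three; some subgroup of finite index has four independent
homomorphisms to `ℤ/p`; some subgroup `N` of finite index has a nonzero homomorphism to `ℚ` which
vanishes on the image in `N` of an unfilled torus cusp; some finite quotient of `Q` has no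
commutative subgroup of index at most two; some linear representation of `Q` over a field has an
image without commutative subgroup of index at most two; for any finitely many virtually commutative
subgroups `B i` of `Q` there is a normal subgroup `N` of finite index such that `Q / ⟨⟨T⟩⟩` is large
for every set `T` of elements of `N` which are conjugate to elements of the `B i` (all the deep
fillings of `Q` are large). -/
theorem result (G : Type) [Group G] (k : ℕ) (H : Fin k → Subgroup G) (hH : ∀ i, VirtZ2 (H i))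
    (hS : SphereRelHyp G H) (Γ : Subgroup G)
    (Q : Type) [Group Q] (hfp : Group.IsFinitelyPresented Q) (π : Γ →* Q)
    (hπ : Function.Surjective π) (m : ℕ) (L : Fin m → Subgroup Γ) (R : Fin m → Γ)
    (hL : ∀ j, TorusCusp H Γ (L j)) (hR : ∀ j, R j ∈ L j)
    (hne : ∀ j j', j ≠ j' → ¬ ConjBy ⊤ (L j) (L j'))
    (hker : π.ker = Subgroup.normalClosure (Set.range R))
    (L₀ : Subgroup Γ) (hL₀ : TorusCusp H Γ L₀) (hun : ∀ j, ¬ ConjBy ⊤ (L j) L₀)
    (p : ℕ) [Fact p.Prime] :
    List.TFAE [IsLarge Q,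
      ∃ N : Subgroup Q, N.FiniteIndex ∧ ∃ K : Fin 3 → Subgroup Γ, (∀ i, TorusCusp H Γ (K i)) ∧
        (∀ i j, ¬ ConjBy ⊤ (L j) (K i)) ∧
        ∀ i i', i ≠ i' → ¬ ConjBy (N.comap π) (K i) (K i'),
      ∃ N : Subgroup Q, N.FiniteIndex ∧
        ∃ f : Fin 3 → (Additive N →+ ℚ), LinearIndependent ℚ f,
      ∃ N : Subgroup Q, N.FiniteIndex ∧
        ∃ f : Fin 4 → (Additive N →+ ZMod p), LinearIndependent (ZMod p) f,
      ∃ N : Subgroup Q, N.FiniteIndex ∧ ∃ K : Subgroup Γ,
        TorusCusp H Γ K ∧ (∀ j, ¬ ConjBy ⊤ (L j) K) ∧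
        ∃ φ : Additive N →+ ℚ, φ ≠ 0 ∧
          ∀ k ∈ K, ∀ hk : π k ∈ N, φ (Additive.ofMul ⟨π k, hk⟩) = 0,
      HasRichQuotient Q,
      RichRep Q,
      ∀ (r : ℕ) (B : Fin r → Subgroup Q),
        (∀ i, ∃ A : Subgroup Q, A ≤ B i ∧ A.relIndex (B i) ≠ 0 ∧
          ∀ a ∈ A, ∀ b ∈ A, a * b = b * a) →
        ∃ N : Subgroup Q, N.Normal ∧ N.FiniteIndex ∧ ∀ T : Set Q,
          (∀ t ∈ T, t ∈ N ∧ ∃ (g : Q) (i : Fin r), g * t * g⁻¹ ∈ B i) →
            IsLarge (Q ⧸ Subgroup.normalClosure T)] := by
  have key := q1_tfae' H hH hS Γ Q hfp π hπ L R hL hR hne hker p L₀ hL₀ hun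
  tfae_have 1 ↔ 2 := key.out 0 1
  tfae_have 1 ↔ 3 := key.out 0 2
  tfae_have 1 ↔ 4 := key.out 0 3
  tfae_have 1 ↔ 5 := key.out 0 4
  tfae_have 1 ↔ 6 := key.out 0 5
  tfae_have 1 ↔ 7 := key.out 0 6
  tfae_have 1 ↔ 8 := Pool.Agent.W_04c03c_X58.large_iff_deep Q
  tfae_finish

end Pool.Agent.Results.MP_04c03c_gt.LargeFillings
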