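import Pool.Agent.W_04c03c_h58.FrH

/-! Residually finite groups of Q1 with at least one peripheral subgroup, and their quotients by
elements of the peripheral subgroups inside of a subgroup of finite index, are large. -/

namespace Pool.Agent.Results.MP_04c03c_gt.ResiduallyFiniteFillings

open RCan

/-- `G` is residually finite: every nontrivial element is outside of a normal subgroup of finite
index. -/
def ResiduallyFinite (G : Type) [Group G] : Prop :=
  ∀ g : G, g ≠ 1 → ∃ N : Subgroup G, N.Normal ∧ N.FiniteIndex ∧ g ∉ N

/-- `G` is large: a subgroup of finite index maps onto the free group of rank two. -/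
def Large (G : Type) [Group G] : Prop :=
  ∃ N : Subgroup G, N.FiniteIndex ∧ ∃ f : N →* FreeGroup (Fin 2), Function.Surjective f

/-- Let `G` be a finitely generated group which is hyperbolic relative to `H 1, ..., H k`, `k ≥ 1`,
all of them virtually `ℤ²`, suppose that the Bowditch boundary of `G` is homeomorphic to the
two-sphere and that `G` is residually finite. Then `G` has a normal subgroup `N` of finite index such
that for every set `S` of elements of `N` which are conjugate in `G` to elements of the `H i` the group
`G / ⟨⟨S⟩⟩` is large. -/
theorem result (G : Type) [Group G] [Group.FG G] (k : ℕ) (hk : 1 ≤ k) (H : Fin k → Subgroup G)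
    (hH : ∀ i, VirtZ2 (H i)) (hS : SphereRelHyp G H) (hrf : ResiduallyFinite G) :
    ∃ N : Subgroup G, N.Normal ∧ N.FiniteIndex ∧ ∀ S : Set G,
      (∀ s ∈ S, s ∈ N ∧ ∃ (g : G) (i : Fin k), g * s * g⁻¹ ∈ H i) →
        Large (G ⧸ Subgroup.normalClosure S) := by
  have : Nonempty (Fin k) := ⟨⟨0, hk⟩⟩
  exact rf_fill inferInstance H hH hS hrf

end Pool.Agent.Results.MP_04c03c_gt.ResiduallyFiniteFillings
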